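import Pool.Agent.Y335.FL.Ahl
import Pool.Agent.Y335.FL.Surf
import Pool.Agent.TH676.Z.ApMC
import Pool.Agent.TH676.Z.AphMC

set_option autoImplicit false
set_option linter.unusedSectionVars false

/-! # Classes of graphs which have a finite cover in a given class -/

namespace Pool.Agent.Zk57.Cv

open Finset Pool.Agent.TH676.Z Pool.Agent.Y335.FL

section
variable {V E W : Type} [Fintype V] [DecidableEq V] [Fintype E] [DecidableEq E] [Fintype W]
  [DecidableEq W] {q : ℕ}

/-- deletion of a set of edges -/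
theorem del_set {Cl : (E → V) → (E → V) → Prop} (h : MC Cl) (s d : E → V) (h0 : Cl s d)
    (X : Finset E) : Cl s (Pool.Agent.TH676.Z.lp s d X) := by
  induction X using Finset.induction_on with
  | empty =>
    have : Pool.Agent.TH676.Z.lp s d ∅ = d := by
      funext e
      simp [Pool.Agent.TH676.Z.lp]
    rw [this]
    exact h0
  | insert a X ha ih =>
    have e1 : Pool.Agent.TH676.Z.lp s d (insert a X) =
        Pool.Agent.TH676.Z.lp s (Pool.Agent.TH676.Z.lp s d X) {a} := by
      funext e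
      unfold Pool.Agent.TH676.Z.lp
      by_cases h1 : e = a
      · simp [h1]
      · simp [h1]
    rw [e1]
    by_cases h2 : s a = Pool.Agent.TH676.Z.lp s d X a
    · have e2 : Pool.Agent.TH676.Z.lp s (Pool.Agent.TH676.Z.lp s d X) {a} =
          Pool.Agent.TH676.Z.lp s d X := by
        funext e
        by_cases h1 : e = a
        · subst h1
          rw [← h2]
          simp [Pool.Agent.TH676.Z.lp]
        · conv_lhs => unfold Pool.Agent.TH676.Z.lp
          rw [if_neg (by simpa using h1)]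
          rfl
      rw [e2]
      exact ih
    · exact h.del _ _ a ih h2

/-- `(s', d')` is a `q`-fold cover of `(src, dst)`, apart from the loops, the lifts of which are
loops -/
structure Cov (q : ℕ) (src dst : E → V) (s' d' : E × Fin q → W) (p : W → V) : Prop where
  ps : ∀ e i, src e ≠ dst e → p (s' (e, i)) = src e
  pd : ∀ e i, src e ≠ dst e → p (d' (e, i)) = dst e
  us : ∀ e w, src e ≠ dst e → p w = src e → ∃! i, s' (e, i) = w
  ud : ∀ e w, src e ≠ dst e → p w = dst e → ∃! i, d' (e, i) = w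
  lo : ∀ e i, src e = dst e → s' (e, i) = d' (e, i)

/-- the graphs which have a `q`-fold cover in the class -/
def CovCl (q : ℕ) (Cl : (E × Fin q → W) → (E × Fin q → W) → Prop) (src dst : E → V) : Prop :=
  ∃ (s' d' : E × Fin q → W) (p : W → V), Cov q src dst s' d' p ∧ Cl s' d'

/-- contraction of the lifts of an edge with numbers in `J` -/
def psi (s' : E × Fin q → W) (p : W → V) (j : W → Fin q) (e : E) (v : V) (J : Finset (Fin q))
    (w : W) : W := if p w = v ∧ j w ∈ J then s' (e, j w) else w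

theorem con_set {Cl : (E × Fin q → W) → (E × Fin q → W) → Prop} (h : MC Cl)
    {src dst : E → V} {s' d' : E × Fin q → W} {p : W → V} (hc : Cov q src dst s' d' p)
    (h0 : Cl s' d') (e : E) (he : src e ≠ dst e) (j : W → Fin q)
    (hj : ∀ w, p w = dst e → d' (e, j w) = w) (J : Finset (Fin q)) :
    Cl (psi s' p j e (dst e) J ∘ s') (psi s' p j e (dst e) J ∘ d') := by
  have hji : ∀ i, j (d' (e, i)) = i := by
    intro i
    obtain ⟨i0, -, hu⟩ := hc.ud e (d' (e, i)) he (hc.pd e i he)
    exact (hu _ (hj _ (hc.pd e i he))).trans (hu i rfl).symm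
  induction J using Finset.induction_on with
  | empty =>
    have : psi s' p j e (dst e) ∅ = id := by
      funext w
      simp [psi]
    rw [this]
    exact h0
  | insert i J hi ih =>
    have h1 : psi s' p j e (dst e) J (s' (e, i)) = s' (e, i) := by
      unfold psi
      rw [if_neg]
      rintro ⟨h2, -⟩
      rw [hc.ps e i he] at h2
      exact he h2
    have h2 : psi s' p j e (dst e) J (d' (e, i)) = d' (e, i) := by
      unfold psi
      rw [if_neg]
      rintro ⟨-, h3⟩
      rw [hji] at h3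
      exact hi h3
    have h3 : s' (e, i) ≠ d' (e, i) := by
      intro h4
      apply he
      rw [← hc.ps e i he, ← hc.pd e i he, h4]
    have h4 := h.con _ _ (e, i) ih (by
      simp only [Function.comp]
      rw [h1, h2]
      exact h3)
    simp only [Function.comp_apply, h1, h2] at h4
    have h5 : ∀ w, ctr (s' (e, i)) (d' (e, i)) (psi s' p j e (dst e) J w) =
        psi s' p j e (dst e) (insert i J) w := by
      intro w
      by_cases hw : p w = dst e
      · by_cases hwi : j w = i
        · have h6 : w = d' (e, i) := by rw [← hwi, hj w hw]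
          have h7 : psi s' p j e (dst e) J w = d' (e, i) := by rw [h6, h2]
          rw [h7]
          unfold ctr psi
          rw [if_pos rfl, if_pos ⟨hw, by rw [hwi]; exact mem_insert_self _ _⟩, hwi]
        · by_cases hwJ : j w ∈ J
          · have h7 : psi s' p j e (dst e) J w = s' (e, j w) := if_pos ⟨hw, hwJ⟩
            have h8 : psi s' p j e (dst e) (insert i J) w = s' (e, j w) :=
              if_pos ⟨hw, mem_insert_of_mem hwJ⟩
            rw [h7, h8]
            unfold ctr
            rw [if_neg]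
            intro h9
            apply he
            rw [← hc.ps e (j w) he, ← hc.pd e i he, h9]
          · have h7 : psi s' p j e (dst e) J w = w := if_neg (fun h => hwJ h.2)
            have h8 : psi s' p j e (dst e) (insert i J) w = w := by
              refine if_neg fun h => ?_
              rcases mem_insert.1 h.2 with h | h
              · exact hwi h
              · exact hwJ h
            rw [h7, h8]
            unfold ctr
            rw [if_neg]
            intro h9
            apply hwi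
            rw [h9, hji]
      · have h7 : ∀ J, psi s' p j e (dst e) J w = w := fun J => if_neg (fun h => hw h.1)
        rw [h7, h7]
        unfold ctr
        rw [if_neg]
        intro h9
        apply hw
        rw [h9, hc.pd e i he]
    have e1 : (ctr (s' (e, i)) (d' (e, i)) ∘ psi s' p j e (dst e) J ∘ s') =
        psi s' p j e (dst e) (insert i J) ∘ s' := funext fun x => h5 _
    have e2 : (ctr (s' (e, i)) (d' (e, i)) ∘ psi s' p j e (dst e) J ∘ d') =
        psi s' p j e (dst e) (insert i J) ∘ d' := funext fun x => h5 _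
    rw [e1, e2] at h4
    exact h4

/-- **The class is closed under minors.** -/
theorem covMC (hq : 0 < q) (Cl : (E × Fin q → W) → (E × Fin q → W) → Prop) (h : MC Cl) :
    MC (V := V) (E := E) (CovCl (W := W) q Cl) := by
  classical
  constructor
  · rintro src dst e ⟨s', d', p, hc, h0⟩ he
    refine ⟨s', Pool.Agent.TH676.Z.lp s' d' (univ.filter (fun x => x.1 = e)), p, ?_,
      del_set h _ _ h0 _⟩
    have hne : ∀ d, src d ≠ Pool.Agent.TH676.Z.lp src dst {e} d →
        d ≠ e ∧ Pool.Agent.TH676.Z.lp src dst {e} d = dst d ∧ src d ≠ dst d := by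
      intro d hd
      have h1 : d ≠ e := by
        rintro rfl
        exact hd (by simp [Pool.Agent.TH676.Z.lp])
      have h2 : Pool.Agent.TH676.Z.lp src dst {e} d = dst d := by
        simp [Pool.Agent.TH676.Z.lp, h1]
      exact ⟨h1, h2, by rw [← h2]; exact hd⟩
    have hl : ∀ d i, d ≠ e → Pool.Agent.TH676.Z.lp s' d' (univ.filter (fun x => x.1 = e)) (d, i) =
        d' (d, i) := by
      intro d i hd
      simp [Pool.Agent.TH676.Z.lp, hd]
    constructor
    · intro d i hd
      exact hc.ps d i (hne d hd).2.2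
    · intro d i hd
      obtain ⟨h1, h2, h3⟩ := hne d hd
      rw [hl d i h1, h2]
      exact hc.pd d i h3
    · intro d w hd hw
      exact hc.us d w (hne d hd).2.2 hw
    · intro d w hd hw
      obtain ⟨h1, h2, h3⟩ := hne d hd
      rw [h2] at hw
      obtain ⟨i, hi, hu⟩ := hc.ud d w h3 hw
      refine ⟨i, ?_, fun y hy => hu y ?_⟩
      · change Pool.Agent.TH676.Z.lp s' d' _ (d, i) = w
        rw [hl d i h1]
        exact hi
      · change Pool.Agent.TH676.Z.lp s' d' _ (d, y) = w at hy
        rw [hl d y h1] at hy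
        exact hy
    · intro d i hd
      by_cases h1 : d = e
      · simp [Pool.Agent.TH676.Z.lp, h1]
      · rw [hl d i h1]
        refine hc.lo d i ?_
        rw [hd]
        simp [Pool.Agent.TH676.Z.lp, h1]
  · rintro src dst e ⟨s', d', p, hc, h0⟩ he
    -- the numbers of the lifts
    obtain ⟨j, hj⟩ : ∃ j : W → Fin q, ∀ w, p w = dst e → d' (e, j w) = w := by
      have : ∀ w, ∃ i : Fin q, p w = dst e → d' (e, i) = w := by
        intro w
        by_cases hw : p w = dst e
        · obtain ⟨i, hi, -⟩ := hc.ud e w he hw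
          exact ⟨i, fun _ => hi⟩
        · exact ⟨⟨0, hq⟩, fun h => absurd h hw⟩
      choose j hj using this
      exact ⟨j, hj⟩
    have hji : ∀ i, j (d' (e, i)) = i := by
      intro i
      obtain ⟨i0, -, hu⟩ := hc.ud e (d' (e, i)) he (hc.pd e i he)
      exact (hu _ (hj _ (hc.pd e i he))).trans (hu i rfl).symm
    set ψ : W → W := psi s' p j e (dst e) univ with hψ
    set φ : V → V := ctr (src e) (dst e) with hφ
    have hψ1 : ∀ w, p w = dst e → ψ w = s' (e, j w) := fun w hw => if_pos ⟨hw, mem_univ _⟩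
    have hψ2 : ∀ w, p w ≠ dst e → ψ w = w := fun w hw => if_neg fun h => hw h.1
    have hφ1 : φ (dst e) = src e := by simp [hφ, ctr]
    have hφ2 : ∀ x, x ≠ dst e → φ x = x := by
      intro x hx
      simp [hφ, ctr, hx]
    have hp : ∀ w, p (ψ w) = φ (p w) := by
      intro w
      by_cases hw : p w = dst e
      · rw [hψ1 w hw, hw, hφ1, hc.ps e _ he]
      · rw [hψ2 w hw, hφ2 _ hw]
    have hgen : ∀ (f : E × Fin q → W) (x : V) (d : E), (∀ i, p (f (d, i)) = x) →
        (∀ w, p w = x → ∃! i, f (d, i) = w) → ∀ w, p w = φ x → ∃! i, ψ (f (d, i)) = w := by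
      intro f x d h1 h2 w hw
      by_cases hx : x = dst e
      · rw [hx, hφ1] at hw
        obtain ⟨k0, hk0, huk⟩ := hc.us e w he hw
        simp only at hk0 huk
        have hp0 : p (d' (e, k0)) = x := by rw [hc.pd e k0 he, hx]
        obtain ⟨i, hi, hui⟩ := h2 _ hp0
        simp only at hi hui
        refine ⟨i, ?_, fun y hy => ?_⟩
        · change ψ (f (d, i)) = w
          rw [hi, hψ1 _ (hc.pd e k0 he), hji, hk0]
        · change ψ (f (d, y)) = w at hy
          have h3 : p (f (d, y)) = dst e := by rw [h1, hx]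
          rw [hψ1 _ h3] at hy
          have h4 := huk _ hy
          apply hui
          rw [← h4, hj _ h3]
      · rw [hφ2 x hx] at hw
        obtain ⟨i, hi, hui⟩ := h2 w hw
        simp only at hi hui
        have h3 : ∀ y, ψ (f (d, y)) = f (d, y) := fun y => hψ2 _ (by rw [h1]; exact hx)
        refine ⟨i, ?_, fun y hy => hui y ?_⟩
        · change ψ (f (d, i)) = w
          rw [h3, hi]
        · change ψ (f (d, y)) = w at hy
          rw [h3] at hy
          exact hy
    set X : Finset (E × Fin q) := univ.filter (fun x => φ (src x.1) = φ (dst x.1)) with hX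
    have hl : ∀ d i, φ (src d) ≠ φ (dst d) →
        Pool.Agent.TH676.Z.lp (ψ ∘ s') (ψ ∘ d') X (d, i) = ψ (d' (d, i)) := by
      intro d i hd
      simp [Pool.Agent.TH676.Z.lp, hX, hd]
    have hne : ∀ d, φ (src d) ≠ φ (dst d) → src d ≠ dst d := fun d hd h1 => hd (by rw [h1])
    refine ⟨ψ ∘ s', Pool.Agent.TH676.Z.lp (ψ ∘ s') (ψ ∘ d') X, p, ?_, ?_⟩
    · constructor
      · intro d i hd
        change p (ψ (s' (d, i))) = φ (src d)
        rw [hp, hc.ps d i (hne d hd)]
      · intro d i hd
        rw [hl d i hd]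
        change p (ψ (d' (d, i))) = φ (dst d)
        rw [hp, hc.pd d i (hne d hd)]
      · intro d w hd hw
        exact hgen s' (src d) d (fun i => hc.ps d i (hne d hd)) (fun w => hc.us d w (hne d hd)) w hw
      · intro d w hd hw
        obtain ⟨i, hi, hu⟩ := hgen d' (dst d) d (fun i => hc.pd d i (hne d hd))
          (fun w => hc.ud d w (hne d hd)) w hw
        refine ⟨i, ?_, fun y hy => hu y ?_⟩
        · change Pool.Agent.TH676.Z.lp (ψ ∘ s') (ψ ∘ d') X (d, i) = w
          rw [hl d i hd]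
          exact hi
        · change Pool.Agent.TH676.Z.lp (ψ ∘ s') (ψ ∘ d') X (d, y) = w at hy
          rw [hl d y hd] at hy
          exact hy
      · intro d i hd
        have : (d, i) ∈ X := by
          rw [hX, mem_filter]
          exact ⟨mem_univ _, hd⟩
        simp [Pool.Agent.TH676.Z.lp, this]
    · exact del_set h _ _ (con_set h hc h0 e he j hj univ) X

end

section
variable {V E W : Type} [Fintype V] [DecidableEq V] [Fintype E] [DecidableEq E] [Fintype W]
  [DecidableEq W] {q : ℕ} {src dst : E → V} {s' d' : E × Fin q → W} {p : W → V}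

/-- the ends of a lifted edge -/
theorem Cov.jn (hc : Cov q src dst s' d' p) {e : E} {i : Fin q} {x y : W} (hxy : x ≠ y)
    (h : Jn s' d' (e, i) x y) : src e ≠ dst e ∧ Jn src dst e (p x) (p y) := by
  have hne : src e ≠ dst e := by
    intro h1
    have h2 := hc.lo e i h1
    rcases h with ⟨a, b⟩ | ⟨a, b⟩
    · exact hxy (by rw [← a, ← b, h2])
    · exact hxy (by rw [← a, ← b, h2])
  refine ⟨hne, ?_⟩
  rcases h with ⟨a, b⟩ | ⟨a, b⟩
  · exact Or.inl ⟨by rw [← a, hc.ps e i hne], by rw [← b, hc.pd e i hne]⟩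
  · exact Or.inr ⟨by rw [← a, hc.ps e i hne], by rw [← b, hc.pd e i hne]⟩

theorem adj_jn {V E : Type} {src dst : E → V} {x y : V} (h : Adj src dst x y) :
    ∃ e, Jn src dst e x y := h.2

theorem Cov.adj (hc : Cov q src dst s' d' p) {x y : W} (h : Adj s' d' x y) :
    Adj src dst (p x) (p y) := by
  obtain ⟨hxy, ⟨e, i⟩, he⟩ := h
  obtain ⟨h1, h2⟩ := hc.jn hxy he
  refine ⟨?_, e, h2⟩
  rcases h2 with ⟨a, b⟩ | ⟨a, b⟩
  · rw [← a, ← b]; exact h1
  · rw [← a, ← b]; exact h1.symm

/-- the other end of the lift of `e` at `x` is unique -/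
theorem Cov.uniq (hc : Cov q src dst s' d' p) {e : E} {i i' : Fin q} {x y y' : W} (hxy : x ≠ y)
    (hxy' : x ≠ y') (h : Jn s' d' (e, i) x y) (h' : Jn s' d' (e, i') x y') : i = i' ∧ y = y' := by
  obtain ⟨h1, -⟩ := hc.jn hxy h
  have key1 : ∀ {i i'}, s' (e, i) = x → s' (e, i') = x → i = i' := by
    intro i i' a b
    obtain ⟨k, -, hu⟩ := hc.us e x h1 (by rw [← a, hc.ps e i h1])
    rw [hu i a, hu i' b]
  have key2 : ∀ {i i'}, d' (e, i) = x → d' (e, i') = x → i = i' := by
    intro i i' a b
    obtain ⟨k, -, hu⟩ := hc.ud e x h1 (by rw [← a, hc.pd e i h1])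
    rw [hu i a, hu i' b]
  have key3 : ∀ {i i'}, s' (e, i) = x → d' (e, i') = x → False := by
    intro i i' a b
    apply h1
    rw [← hc.ps e i h1, ← hc.pd e i' h1, a, b]
  rcases h with ⟨a, b⟩ | ⟨a, b⟩ <;> rcases h' with ⟨a', b'⟩ | ⟨a', b'⟩
  · have := key1 a a'
    subst this
    exact ⟨rfl, b.symm.trans b'⟩
  · exact (key3 a b').elim
  · exact (key3 a' b).elim
  · have := key2 b b'
    subst this
    exact ⟨rfl, a.symm.trans a'⟩

theorem Cov.noPar (hc : Cov q src dst s' d' p) (hP : NoPar src dst) : NoPar s' d' := by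
  rintro ⟨e, i⟩ ⟨e', i'⟩ x y hxy h h'
  obtain ⟨h1, h2⟩ := hc.jn hxy h
  obtain ⟨-, h2'⟩ := hc.jn hxy h'
  have hpne : p x ≠ p y := by
    rcases h2 with ⟨a, b⟩ | ⟨a, b⟩
    · rw [← a, ← b]; exact h1
    · rw [← a, ← b]; exact h1.symm
  have h3 := hP e e' _ _ hpne h2 h2'
  subst h3
  rw [(hc.uniq hxy hxy h h').1]

theorem Cov.inj (hc : Cov q src dst s' d' p) (hP : NoPar src dst) {x y y' : W}
    (h : Adj s' d' x y) (h' : Adj s' d' x y') (hp : p y = p y') : y = y' := by
  have ha := hc.adj h
  obtain ⟨hxy, ⟨e, i⟩, he⟩ := h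
  obtain ⟨hxy', ⟨e', i'⟩, he'⟩ := h'
  obtain ⟨-, h2⟩ := hc.jn hxy he
  obtain ⟨-, h2'⟩ := hc.jn hxy' he'
  rw [← hp] at h2'
  have h3 := hP e e' _ _ ha.1 h2 h2'
  subst h3
  exact (hc.uniq hxy hxy' he he').2

theorem Cov.lift (hc : Cov q src dst s' d' p) {x : W} {a : V} (h : Adj src dst (p x) a) :
    ∃ y, p y = a ∧ Adj s' d' x y := by
  obtain ⟨hne, e, he⟩ := h
  rcases he with ⟨h1, h2⟩ | ⟨h1, h2⟩
  · have h3 : src e ≠ dst e := by rw [h1, h2]; exact hne
    obtain ⟨i, hi, -⟩ := hc.us e x h3 h1.symm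
    have h4 : p (d' (e, i)) = a := by rw [hc.pd e i h3, h2]
    refine ⟨d' (e, i), h4, ?_, (e, i), Or.inl ⟨hi, rfl⟩⟩
    intro h5
    rw [← h5] at h4
    exact hne h4
  · have h3 : src e ≠ dst e := by rw [h1, h2]; exact hne.symm
    obtain ⟨i, hi, -⟩ := hc.ud e x h3 h2.symm
    have h4 : p (s' (e, i)) = a := by rw [hc.ps e i h3, h1]
    refine ⟨s' (e, i), h4, ?_, (e, i), Or.inr ⟨rfl, hi⟩⟩
    intro h5
    rw [← h5] at h4
    exact hne h4

theorem Cov.three (hc : Cov q src dst s' d' p) (hT : Three (Adj src dst)) :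
    Three (Adj s' d') := by
  intro x y h
  obtain ⟨a, b, c, ha, hb, hc', hab, hac, hbc⟩ := hT _ _ (hc.adj h)
  obtain ⟨a', ha1, ha2⟩ := hc.lift ha
  obtain ⟨b', hb1, hb2⟩ := hc.lift hb
  obtain ⟨c', hc1, hc2⟩ := hc.lift hc'
  refine ⟨a', b', c', ha2, hb2, hc2, ?_, ?_, ?_⟩
  · rintro rfl; exact hab (ha1.symm.trans hb1)
  · rintro rfl; exact hac (ha1.symm.trans hc1)
  · rintro rfl; exact hbc (hb1.symm.trans hc1)

theorem adj_symm' {V E : Type} {src dst : E → V} {x y : V} (h : Adj src dst x y) :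
    Adj src dst y x := ⟨h.1.symm, h.2.imp fun _ => Or.symm⟩

theorem Cov.girth (hc : Cov q src dst s' d' p) (hP : NoPar src dst)
    (hG : Girth (Adj src dst) 12) : Girth (Adj s' d') 12 := by
  intro k hk v hv hadj
  have hnb : Ahl.NB (Adj src dst) (k + 3) (fun m => p (v (Fin.ofNat (k + 3) m))) := by
    have hsucc : ∀ m : ℕ, (Fin.ofNat (k + 3) (m + 1)) = Fin.ofNat (k + 3) m + 1 := by
      intro m
      ext
      simp [Fin.ofNat, Fin.val_add]
    constructor
    · intro m _
      rw [hsucc]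
      exact hc.adj (hadj _)
    · intro m _ heq
      have h2 : Fin.ofNat (k + 3) (m + 2) = Fin.ofNat (k + 3) m + 1 + 1 := by
        rw [show m + 2 = (m + 1) + 1 from rfl, hsucc, hsucc]
      rw [h2] at heq
      have a1 := adj_symm' (hadj (Fin.ofNat (k + 3) m))
      have a2 := hadj (Fin.ofNat (k + 3) m + 1)
      have h3 := hv (hc.inj hP a1 a2 heq)
      have h4 : (Fin.ofNat (k + 3) m : Fin (k + 3)) + (1 + 1) = Fin.ofNat (k + 3) m + 0 := by
        rw [add_zero, ← add_assoc]
        exact h3.symm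
      have h5 := add_left_cancel h4
      have h6 := congrArg Fin.val h5
      simp only [Fin.val_add, Fin.val_one, Fin.val_zero] at h6
      rw [Nat.mod_eq_of_lt (by omega)] at h6
      omega
  have h1 := hnb.ne (fun a h => h.1 rfl) hG (by omega) 0 (k + 3) (by omega) le_rfl
  apply h1
  congr 2
  ext
  simp [Fin.ofNat]

/-- the degrees -/
theorem Cov.ns (hc : Cov q src dst s' d' p) (hP : NoPar src dst) (w : W) :
    (Ns s' d' w).card ≤ (Ns src dst (p w)).card := by
  refine card_le_card_of_injOn p ?_ ?_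
  · intro y hy
    simp only [Ns, coe_filter, mem_univ, true_and, Set.mem_setOf_eq] at hy ⊢
    exact hc.adj hy
  · intro y hy y' hy' h
    simp only [Ns, coe_filter, mem_univ, true_and, Set.mem_setOf_eq] at hy hy'
    exact hc.inj hP hy hy' h

/-- the number of edges -/
theorem Cov.edges (hc : Cov q src dst s' d' p) :
    q * (univ.filter (fun e => src e ≠ dst e)).card ≤
      (univ.filter (fun x => s' x ≠ d' x)).card := by
  have h1 : ((univ.filter (fun e => src e ≠ dst e)) ×ˢ (univ : Finset (Fin q))).card =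
      q * (univ.filter (fun e => src e ≠ dst e)).card := by
    rw [card_product, card_univ, Fintype.card_fin, mul_comm]
  rw [← h1]
  refine card_le_card ?_
  rintro ⟨e, i⟩ h
  rw [mem_product, mem_filter] at h
  rw [mem_filter]
  refine ⟨mem_univ _, fun h2 => h.1.2 ?_⟩
  rw [← hc.ps e i h.1.2, ← hc.pd e i h.1.2, h2]

/-- the counts in a cover -/
theorem Cov.common (hE : Edge62') (hc : Cov q src dst s' d' p) (hq : 0 < q)
    (hG : Girth (Adj src dst) 12) (hT : Three (Adj src dst)) (hP : NoPar src dst) {e0 : E}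
    (he0 : src e0 ≠ dst e0) (T : Finset W) (hk : T.card < 63 * q) :
    63 * q * ∑ s ∈ T, (Ns s' d' s).card ≤
        T.card * ((ES s' d' T).card + ∑ s ∈ T, (Ns s' d' s).card) ∧
      189 * q ≤ (ES s' d' T).card + ∑ s ∈ T, (Ns s' d' s).card ∧ (VS s' d' T).Nonempty := by
  obtain ⟨-, h189', -⟩ := Surfx.common hE hG hT hP he0 ∅ (by simp)
  have h189 : 189 ≤ (univ.filter (fun e => src e ≠ dst e)).card := by
    have h1 : (ES src dst ∅).card ≤ (univ.filter (fun e => src e ≠ dst e)).card := by
      refine card_le_card fun e he => ?_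
      simp only [ES, mem_filter, mem_univ, true_and] at he ⊢
      exact he.1
    rw [sum_empty, add_zero] at h189'
    omega
  obtain ⟨s1, -⟩ := split W (E × Fin q) s' d' T (hc.noPar hP)
  have hM := hc.edges
  set M := (univ.filter (fun e => src e ≠ dst e)).card with hMd
  have hqM : q * M ≤ (ES s' d' T).card + ∑ s ∈ T, (Ns s' d' s).card := hM.trans s1
  have hdeg : ∀ w, 63 * q * (Ns s' d' w).card ≤
      (ES s' d' T).card + ∑ s ∈ T, (Ns s' d' s).card := by
    intro w
    have h1 := hE V E src dst (p w) hP hG hT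
    obtain ⟨-, s2⟩ := split V E src dst ∅ hP
    have h2 := s2 (p w)
    have h3 := hc.ns hP w
    have h4 : 63 * (Ns s' d' w).card ≤ M := by omega
    calc 63 * q * (Ns s' d' w).card = q * (63 * (Ns s' d' w).card) := by ring
      _ ≤ q * M := Nat.mul_le_mul_left q h4
      _ ≤ _ := hqM
  have h63 : 63 * q * ∑ s ∈ T, (Ns s' d' s).card ≤
      T.card * ((ES s' d' T).card + ∑ s ∈ T, (Ns s' d' s).card) := by
    rw [mul_sum]
    calc ∑ s ∈ T, 63 * q * (Ns s' d' s).card
        ≤ ∑ _s ∈ T, ((ES s' d' T).card + ∑ s ∈ T, (Ns s' d' s).card) :=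
          sum_le_sum fun s _ => hdeg s
      _ = T.card * ((ES s' d' T).card + ∑ s ∈ T, (Ns s' d' s).card) := by
          rw [sum_const, smul_eq_mul]
  have h6 : 189 * q ≤ (ES s' d' T).card + ∑ s ∈ T, (Ns s' d' s).card := by
    calc 189 * q = q * 189 := by ring
      _ ≤ q * M := Nat.mul_le_mul_left q h189
      _ ≤ _ := hqM
  refine ⟨h63, h6, ?_⟩
  rw [nonempty_iff_ne_empty]
  intro hem
  have h0 : (ES s' d' T).card = 0 := by
    rw [card_eq_zero, eq_empty_iff_forall_notMem]
    intro e he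
    have := (Surfx.hends T e he).1
    rw [hem] at this
    exact absurd this (notMem_empty _)
  rw [h0, zero_add] at h63 h6
  have h7 : 0 < ∑ s ∈ T, (Ns s' d' s).card := by omega
  have h8 := Nat.le_of_mul_le_mul_right h63 h7
  omega

end

theorem numS {m n t r z s h q : ℕ} (hq : 0 < q) (h1 : m + 1 ≤ z + n) (h2 : 3 * n ≤ 2 * m + t)
    (h3 : 63 * q * t ≤ s * (m + t)) (h4 : 1 ≤ r → 12 * (r + 1) ≤ 2 * m) (h5 : z ≤ r + h)
    (h6 : 189 * q ≤ m + t) (hk : 3 * s + 2 * h ≤ 63 * q + 3) (hk' : s ≤ 21 * q) : False := by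
  -- `q (M - 3 t) ≥ ...`
  have h7 : 63 * q * (9 * s) ≤ 63 * q * (9 * s) := le_rfl
  -- `t ≤ s M / (63 q)`
  have key : ∀ c : ℕ, c * s ≤ 63 * q → c * t + (189 * q - 3 * c * s) ≤ m + t := by
    intro c hc
    have a1 : 63 * q * (c * t) ≤ c * s * (m + t) := by
      calc 63 * q * (c * t) = c * (63 * q * t) := by ring
        _ ≤ c * (s * (m + t)) := Nat.mul_le_mul_left c h3
        _ = c * s * (m + t) := by ring
    obtain ⟨M, hM⟩ : ∃ M, M = m + t := ⟨_, rfl⟩
    rw [← hM] at a1 h6 ⊢
    obtain ⟨x, hx⟩ : ∃ x, x = c * s := ⟨_, rfl⟩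
    rw [show 3 * c * s = 3 * x by rw [hx]; ring]
    rw [← hx] at a1 hc
    by_contra hcon
    push Not at hcon
    have h9 : 3 * x ≤ 189 * q := by omega
    zify [h9] at *
    nlinarith [mul_nonneg (show (0 : ℤ) ≤ 63 * (q : ℤ) - x by linarith)
      (show (0 : ℤ) ≤ (M : ℤ) - 189 * q by linarith)]
  rcases Nat.eq_zero_or_pos r with hr | hr
  · have h8 := key 2 (by omega)
    omega
  · have h8 := key 3 (by omega)
    have h9 := h4 hr
    omega

theorem numC {m n t z s q : ℕ} (hq : 0 < q) (h1 : m + 1 ≤ z + n) (h2 : 3 * n ≤ 2 * m + t)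
    (h3 : 63 * q * t ≤ s * (m + t)) (h6 : 189 * q ≤ m + t) (hz : z + 2 * s ≤ 63 * q) : False := by
  have a1 : 63 * q * (2 * t) ≤ 2 * s * (m + t) := by
    calc 63 * q * (2 * t) = 2 * (63 * q * t) := by ring
      _ ≤ 2 * (s * (m + t)) := Nat.mul_le_mul_left 2 h3
      _ = 2 * s * (m + t) := by ring
  have key : 2 * t + (189 * q - 6 * s) ≤ m + t := by
    obtain ⟨M, hM⟩ : ∃ M, M = m + t := ⟨_, rfl⟩
    rw [← hM] at a1 h6 ⊢
    by_contra hcon
    push Not at hcon
    have h9 : 6 * s ≤ 189 * q := by omega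
    have h10 : 2 * s ≤ 63 * q := by omega
    zify [h9] at *
    nlinarith [mul_nonneg (show (0 : ℤ) ≤ 63 * (q : ℤ) - 2 * s by linarith)
      (show (0 : ℤ) ≤ (M : ℤ) - 189 * q by linarith)]
  omega

/-- **5-flows**: finite covers of small genus -/
theorem surfCov (hg : St_girth12) (hev : St_even) (hE : Edge62') (V E W : Type) [Fintype V]
    [DecidableEq V] [Fintype E] [DecidableEq E] [Fintype W] [DecidableEq W] (q k h : ℕ) (hq : 0 < q)
    (hkh : 3 * k + 2 * h ≤ 63 * q + 3) (hk : k ≤ 21 * q) (src dst : E → V)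
    (hA : CovCl (W := W) q (ApH k h) src dst) (hb : Br src dst ∅ ∅) : FlowOn src dst ∅ ∅ := by
  by_contra hn
  obtain ⟨S, D, hAp, hM⟩ := crit V E _ (covMC hq (ApH k h) (aphMC W (E × Fin q) k h))
    src dst hA hb hn
  have hT := (gi_all V E S D hM).2
  have hP := noPar V E S D hM
  have hG := hg V E S D hM
  by_cases hno : ∀ e, S e = D e
  · exact hM.nf (flow_of_loops hno)
  push Not at hno
  obtain ⟨e0, he0⟩ := hno
  obtain ⟨s', d', p, hc, T, hTc, l, K, k1, k2, k3⟩ := hAp
  obtain ⟨h63, h6, hne⟩ := hc.common hE hq hG hT hP he0 T (by omega)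
  have e1 := dim W (E × Fin q) s' d' (ES s' d' T) (VS s' d' T) hne (Surfx.hends T)
  have e2 := degS W (E × Fin q) s' d' T (hc.three hT)
  have e4 := facesG W (E × Fin q) s' d' (ES s' d' T) l 12 K k1 k2
    (hev W (E × Fin q) s' d' (ES s' d' T) 12 (hc.girth hP hG) (hc.noPar hP) (by
      intro e he
      unfold ES at he
      rw [mem_filter] at he
      exact he.2.1))
  exact numS hq e1 e2 (h63.trans (Nat.mul_le_mul_right _ hTc)) e4 k3 h6 hkh hk

/-- **5-flows**: finite covers with few circuits -/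
theorem cycCov (hg : St_girth12) (hE : Edge62') (V E W : Type) [Fintype V]
    [DecidableEq V] [Fintype E] [DecidableEq E] [Fintype W] [DecidableEq W] (q : ℕ) (hq : 0 < q)
    (src dst : E → V) (hA : CovCl (W := W) q (CyN (63 * q)) src dst) (hb : Br src dst ∅ ∅) :
    FlowOn src dst ∅ ∅ := by
  by_contra hn
  obtain ⟨S, D, hAp, hM⟩ := crit V E _ (covMC hq (CyN (63 * q)) (cynMC (63 * q) W (E × Fin q)))
    src dst hA hb hn
  have hT := (gi_all V E S D hM).2
  have hP := noPar V E S D hM
  have hG := hg V E S D hM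
  by_cases hno : ∀ e, S e = D e
  · exact hM.nf (flow_of_loops hno)
  push Not at hno
  obtain ⟨e0, he0⟩ := hno
  obtain ⟨s', d', p, hc, T, hT63⟩ := hAp
  obtain ⟨h63, h6, hne⟩ := hc.common hE hq hG hT hP he0 T (by omega)
  have e1 := dim W (E × Fin q) s' d' (ES s' d' T) (VS s' d' T) hne (Surfx.hends T)
  have e2 := degS W (E × Fin q) s' d' T (hc.three hT)
  exact numC hq e1 e2 h63 h6 hT63

end Pool.Agent.Zk57.Cv
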