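import Pool.Agent.H173FL.Tree

set_option autoImplicit false
set_option linter.unusedSectionVars false

/-! # Graphs without a large cubic tree as an induced minor -/

namespace Pool.Agent.Zk57.IT

open Finset Pool.Agent.TH676.Z Pool.Agent.Y335.FL Pool.Agent.Y358.IN Pool.Agent.H173FL

/-- the distance from the root of the vertex with the label `t`: a side and a word; the roots of the
two sides are adjacent, and the root of the first side is the root of the tree -/
def dep (t : Bool × List Bool) : ℕ := t.2.length + (if t.1 then 1 else 0)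

/-- `t` is the predecessor of `t'` -/
def Par (t t' : Bool × List Bool) : Prop :=
  (t = (false, []) ∧ t' = (true, [])) ∨ (t'.1 = t.1 ∧ ∃ c, t'.2 = c :: t.2)

/-- the labels `t` and `t'` are leaves of different sides of the tree of depth `n` -/
def Opp (n : ℕ) (t t' : Bool × List Bool) : Prop :=
  t.1 ≠ t'.1 ∧ t.2.length = n ∧ t'.2.length = n

/-- branch sets, given by labels, form a minor isomorphic to the double binary tree of depth `n` which
is induced up to edges between leaves of different sides -/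
def IndTree {V E : Type} (n : ℕ) (src dst : E → V) : Prop :=
  ∃ β : V → Option (Bool × List Bool),
    (∀ t : Bool × List Bool, t.2.length ≤ n → ∀ X : V → Prop,
      (∃ v, X v ∧ β v = some t) → (∃ v, ¬ X v ∧ β v = some t) →
      ∃ e, β (src e) = some t ∧ β (dst e) = some t ∧ ¬ (X (src e) ↔ X (dst e))) ∧
    (∀ t t', t'.2.length ≤ n → Par t t' → ∃ e, (β (src e) = some t ∧ β (dst e) = some t') ∨
      (β (dst e) = some t ∧ β (src e) = some t')) ∧
    ∀ e t t', t.2.length ≤ n → t'.2.length ≤ n → β (src e) = some t → β (dst e) = some t' →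
      t ≠ t' → Par t t' ∨ Par t' t ∨ Opp n t t'

section cls

variable {V E : Type} [Fintype V] [DecidableEq V] [Fintype E] [DecidableEq E]

theorem indTree_ctr {n : ℕ} (src dst : E → V) (e : E)
    (h : IndTree n (ctr (src e) (dst e) ∘ src) (ctr (src e) (dst e) ∘ dst)) :
    IndTree n src dst := by
  obtain ⟨β, h1, h2, h3⟩ := h
  set φ := ctr (src e) (dst e) with hφ
  have hφb : φ (dst e) = src e := by simp [hφ, ctr]
  have hφa : φ (src e) = src e := by
    simp only [hφ, ctr]
    split_ifs <;> rfl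
  have hφx : ∀ x, x ≠ dst e → φ x = x := by
    intro x hx
    simp [hφ, ctr, hx]
  refine ⟨β ∘ φ, ?_, h2, h3⟩
  intro t ht X hv hv'
  obtain ⟨v, hvX, hvt⟩ := hv
  obtain ⟨v', hvX', hvt'⟩ := hv'
  simp only [Function.comp] at hvt hvt' ⊢
  by_cases ha : β (src e) = some t
  · by_cases hX : X (src e) ↔ X (dst e)
    · have hXφ : ∀ x, X (φ x) ↔ X x := by
        intro x
        by_cases hx : x = dst e
        · rw [hx, hφb, hX]
        · rw [hφx x hx]
      obtain ⟨e', a1, a2, a3⟩ := h1 t ht X ⟨φ v, (hXφ v).mpr hvX, hvt⟩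
        ⟨φ v', fun h => hvX' ((hXφ v').mp h), hvt'⟩
      refine ⟨e', a1, a2, fun h => a3 ?_⟩
      simp only [Function.comp]
      rw [hXφ, hXφ]
      exact h
    · exact ⟨e, by rw [hφa]; exact ha, by rw [hφb]; exact ha, hX⟩
  · have hne : ∀ x, β (φ x) = some t → φ x = x := by
      intro x hx
      refine hφx x fun h => ha ?_
      rw [h, hφb] at hx
      exact hx
    obtain ⟨e', a1, a2, a3⟩ := h1 t ht X ⟨v, hvX, by rw [hne v hvt] at hvt; exact hvt⟩
      ⟨v', hvX', by rw [hne v' hvt'] at hvt'; exact hvt'⟩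
    simp only [Function.comp] at a1 a2 a3
    refine ⟨e', a1, a2, fun h => a3 ?_⟩
    rw [hne _ a1, hne _ a2]
    exact h

theorem ccI (n : ℕ) : CC (V := V) (E := E) (fun src dst => ¬ IndTree n src dst) :=
  fun src dst e h _ h' => h (indTree_ctr src dst e h')

end cls

section graph

variable {V : Type} [Fintype V] [DecidableEq V] {G : SimpleGraph V}

/-- the vertex with the label `t` -/
def emb (N : V → V → V × V) (x y : V) (t : Bool × List Bool) : V :=
  if t.1 then (addr N y x t.2).1 else (addr N x y t.2).1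

/-- the predecessor of the vertex with the label `t` -/
def pre (N : V → V → V × V) (x y : V) (t : Bool × List Bool) : V :=
  if t.1 then (addr N y x t.2).2 else (addr N x y t.2).2

variable (h12 : ∀ (w : V) (c : G.Walk w w), c.IsCycle → 12 ≤ c.length)
  (N : V → V → V × V)
  (hN : ∀ v pr : V, (∃ z, G.Adj v z) → G.Adj v (N v pr).1 ∧ G.Adj v (N v pr).2 ∧
    (N v pr).1 ≠ (N v pr).2 ∧ (N v pr).1 ≠ pr ∧ (N v pr).2 ≠ pr)

include h12 hN

theorem emb_path {x y : V} (hxy : G.Adj x y) (t : Bool × List Bool) (ht : t.2.length ≤ 5) :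
    ∃ p : G.Walk x (emb N x y t), p.IsPath ∧ p.length = dep t ∧
      (dep t ≠ 0 → p.penultimate = pre N x y t) := by
  obtain ⟨b, w⟩ := t
  cases b
  · change ∃ p : G.Walk x (addr N x y w).1, p.IsPath ∧ p.length = w.length + 0 ∧
      (w.length + 0 ≠ 0 → p.penultimate = (addr N x y w).2)
    obtain ⟨p, hp, -, hpl, hpen⟩ := addr_path h12 N hN hxy w ht
    refine ⟨p, hp, by omega, fun h0 => ?_⟩
    have hnil : ¬ p.Nil := by
      intro hn
      have := SimpleGraph.Walk.length_eq_zero_iff.mpr hn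
      omega
    rw [← hpen]
    exact (SimpleGraph.Walk.penultimate_cons_of_not_nil _ _ hnil).symm
  · change ∃ p : G.Walk x (addr N y x w).1, p.IsPath ∧ p.length = w.length + 1 ∧
      (w.length + 1 ≠ 0 → p.penultimate = (addr N y x w).2)
    obtain ⟨p, hp, hy, hpl, hpen⟩ := addr_path h12 N hN hxy.symm w ht
    refine ⟨SimpleGraph.Walk.cons hxy p, ?_, ?_, fun _ => hpen⟩
    · rw [SimpleGraph.Walk.cons_isPath_iff]
      exact ⟨hp, hy⟩
    · rw [SimpleGraph.Walk.length_cons, hpl]

theorem emb_inj {x y : V} (hxy : G.Adj x y) (t t' : Bool × List Bool) (h1 : t.2.length ≤ 5)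
    (h2 : t'.2.length ≤ 5) (h : emb N x y t = emb N x y t') : t = t' := by
  obtain ⟨b, w⟩ := t
  obtain ⟨b', w'⟩ := t'
  cases b <;> cases b' <;> simp only [emb, if_true, if_false, Bool.false_eq_true] at h
  · rw [addr_inj h12 N hN hxy w w' h1 h2 h]
  · exact absurd h (addr_ne h12 N hN hxy w w' h1 h2)
  · exact absurd h.symm (addr_ne h12 N hN hxy w' w h2 h1)
  · rw [addr_inj h12 N hN hxy.symm w w' h1 h2 h]

theorem adj_aux {x y : V} (hxy : G.Adj x y) (t t' : Bool × List Bool) (h1 : t.2.length ≤ 5)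
    (h2 : t'.2.length ≤ 5) (h12' : dep t + dep t' ≤ 10)
    (hadj : G.Adj (emb N x y t) (emb N x y t'))
    (p : G.Walk x (emb N x y t)) (hp : p.IsPath) (hpl : p.length = dep t)
    (hs : emb N x y t' ∉ p.support) : Par t t' := by
  obtain ⟨q, hq, hql, hqp⟩ := emb_path h12 N hN hxy t' h2
  have e1 := Ord.uniq h12 (hp.concat hs hadj) hq
    (by rw [SimpleGraph.Walk.length_concat]; omega)
  have hl : dep t + 1 = dep t' := by
    rw [← hql, ← e1, SimpleGraph.Walk.length_concat, hpl]
  have hpen : pre N x y t' = emb N x y t := by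
    rw [← hqp (by omega), ← e1, SimpleGraph.Walk.penultimate_concat]
  obtain ⟨b', w'⟩ := t'
  cases w' with
  | nil =>
    cases b' with
    | false => simp [dep] at hl
    | true =>
      left
      have h3 : emb N x y t = emb N x y (false, []) := hpen.symm
      exact ⟨emb_inj h12 N hN hxy t (false, []) h1 (by simp) h3, rfl⟩
  | cons c w =>
    right
    have hw5 : w.length ≤ 5 := by
      simp only [List.length_cons] at h2
      omega
    have h3 : emb N x y t = emb N x y (b', w) := by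
      rw [← hpen]
      cases b' <;> rfl
    have h4 := emb_inj h12 N hN hxy t (b', w) h1 hw5 h3
    rw [h4]
    exact ⟨rfl, c, rfl⟩

theorem adj_par {x y : V} (hxy : G.Adj x y) (t t' : Bool × List Bool) (h1 : t.2.length ≤ 5)
    (h2 : t'.2.length ≤ 5) (h12' : dep t + dep t' ≤ 10)
    (hadj : G.Adj (emb N x y t) (emb N x y t')) : Par t t' ∨ Par t' t := by
  obtain ⟨p, hp, hpl, -⟩ := emb_path h12 N hN hxy t h1
  by_cases hs : emb N x y t' ∈ p.support
  · right
    have hq : (p.takeUntil _ hs).IsPath := hp.takeUntil hs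
    obtain ⟨q, hq', hql', -⟩ := emb_path h12 N hN hxy t' h2
    have hle : (p.takeUntil _ hs).length ≤ p.length := p.length_takeUntil_le_length hs
    have e1 := Ord.uniq h12 hq hq' (by omega)
    refine adj_aux h12 N hN hxy t' t h2 h1 (by omega) hadj.symm (p.takeUntil _ hs) hq
      (by rw [e1, hql']) ?_
    intro h3
    have := SimpleGraph.Walk.endpoint_notMem_support_takeUntil hp hs hadj.ne
    exact this h3
  · left
    exact adj_aux h12 N hN hxy t t' h1 h2 h12' hadj p hp hpl hs

theorem adj_all {x y : V} (hxy : G.Adj x y) (t t' : Bool × List Bool) (h1 : t.2.length ≤ 5)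
    (h2 : t'.2.length ≤ 5) (hadj : G.Adj (emb N x y t) (emb N x y t')) :
    Par t t' ∨ Par t' t ∨ Opp 5 t t' := by
  obtain ⟨b, w⟩ := t
  obtain ⟨b', w'⟩ := t'
  simp only at h1 h2
  have key : ∀ b b' : Bool, ∀ w w' : List Bool, w.length ≤ 5 → w'.length ≤ 5 → b ≠ b' →
      G.Adj (emb N x y (b, w)) (emb N x y (b', w')) →
      Par (b, w) (b', w') ∨ Par (b', w') (b, w) ∨ Opp 5 (b, w) (b', w') := by
    intro b b' w w' h1 h2 hb hadj
    by_cases h5 : w.length = 5 ∧ w'.length = 5
    · exact Or.inr (Or.inr ⟨hb, h5.1, h5.2⟩)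
    · have hd : dep (b, w) + dep (b', w') ≤ 10 := by
        cases b <;> cases b' <;> simp [dep] at hb ⊢ <;> omega
      rcases adj_par h12 N hN hxy (b, w) (b', w') h1 h2 hd hadj with h | h
      · exact Or.inl h
      · exact Or.inr (Or.inl h)
  by_cases hb : b = b'
  · subst hb
    cases b
    · rcases adj_par h12 N hN hxy (false, w) (false, w') h1 h2 (by simp [dep]; omega) hadj with h | h
      · exact Or.inl h
      · exact Or.inr (Or.inl h)
    · have hadj' : G.Adj (emb N y x (false, w)) (emb N y x (false, w')) := hadj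
      have hP : ∀ w w' : List Bool, Par (false, w) (false, w') → Par (true, w) (true, w') := by
        rintro w w' (⟨-, h⟩ | ⟨-, c, h⟩)
        · simp at h
        · exact Or.inr ⟨rfl, c, h⟩
      rcases adj_par h12 N hN hxy.symm (false, w) (false, w') h1 h2 (by simp [dep]; omega) hadj'
        with h | h
      · exact Or.inl (hP _ _ h)
      · exact Or.inr (Or.inl (hP _ _ h))
  · exact key b b' w w' h1 h2 hb hadj

end graph

/-- **Main step.** -/
theorem flow_of_no_indTree (hc : St_contract) {V E : Type} [Fintype V] [DecidableEq V]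
    [Fintype E] [DecidableEq E] (src dst : E → V) (hcl : ¬ IndTree 5 src dst)
    (hbr : Br src dst ∅ ∅) : FlowOn src dst ∅ ∅ := by
  classical
  by_contra hn
  obtain ⟨s, d, hS, hM⟩ := exists_minC (ccI 5) src dst hcl hbr hn
  have h3 := threeC hc hM
  have hgi := girthC hc hM
  by_cases hl : ∀ e, s e = d e
  · exact hM.nf (flow_of_loops hl)
  push Not at hl
  obtain ⟨e, he⟩ := hl
  let G : SimpleGraph V :=
    { Adj := Adj s d
      symm := ⟨fun a b h => GiAux.adj_symm h⟩
      loopless := ⟨fun a h => h.1 rfl⟩ }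
  have hG : ∀ a b, G.Adj a b ↔ Adj s d a b := fun a b => Iff.rfl
  have h12 : ∀ (w : V) (c : G.Walk w w), c.IsCycle → 12 ≤ c.length :=
    fun w c hc => Ord.cycle_len hgi G hG c hc
  have h3' : ∀ x y, G.Adj x y → ∃ a b c, G.Adj x a ∧ G.Adj x b ∧ G.Adj x c ∧ a ≠ b ∧ a ≠ c ∧ b ≠ c :=
    fun x y h => h3 x y h
  have hxy : G.Adj (s e) (d e) := ⟨he, e, Or.inl ⟨rfl, rfl⟩⟩
  obtain ⟨N, hN⟩ : ∃ N : V → V → V × V, ∀ v pr : V, (∃ z, G.Adj v z) →
      G.Adj v (N v pr).1 ∧ G.Adj v (N v pr).2 ∧
      (N v pr).1 ≠ (N v pr).2 ∧ (N v pr).1 ≠ pr ∧ (N v pr).2 ≠ pr := by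
    have : ∀ v pr : V, ∃ q : V × V, (∃ z, G.Adj v z) → G.Adj v q.1 ∧ G.Adj v q.2 ∧
        q.1 ≠ q.2 ∧ q.1 ≠ pr ∧ q.2 ≠ pr := by
      intro v pr
      by_cases hz : ∃ z, G.Adj v z
      · obtain ⟨z, hz⟩ := hz
        obtain ⟨a, b, h⟩ := two_more (pr := pr) (h3' v z hz)
        exact ⟨(a, b), fun _ => h⟩
      · exact ⟨(v, v), fun h => absurd h hz⟩
    choose N hN using this
    exact ⟨N, hN⟩
  obtain ⟨x, hx⟩ : ∃ x, x = s e := ⟨_, rfl⟩
  obtain ⟨y, hy⟩ : ∃ y, y = d e := ⟨_, rfl⟩
  rw [← hx, ← hy] at hxy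
  have hadj : ∀ t t', t'.2.length ≤ 5 → Par t t' → G.Adj (emb N x y t) (emb N x y t') := by
    rintro ⟨b, w⟩ ⟨b', w'⟩ h2 h
    rcases h with ⟨h3, h4⟩ | ⟨h3, c, h4⟩
    · rw [h3, h4]
      exact hxy
    · simp only at h3 h4
      subst h3
      subst h4
      have hw5 : w.length ≤ 5 := by
        simp only [List.length_cons] at h2
        omega
      cases b'
      · obtain ⟨p, -⟩ := addr_path h12 N hN hxy w hw5
        obtain ⟨n1, n2, -⟩ := hN (addr N x y w).1 (addr N x y w).2 (Ord.nbr hxy p)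
        cases c
        · exact n2
        · exact n1
      · obtain ⟨p, -⟩ := addr_path h12 N hN hxy.symm w hw5
        obtain ⟨n1, n2, -⟩ := hN (addr N y x w).1 (addr N y x w).2 (Ord.nbr hxy.symm p)
        cases c
        · exact n2
        · exact n1
  let β : V → Option (Bool × List Bool) := fun v =>
    if h : ∃ t : Bool × List Bool, t.2.length ≤ 5 ∧ emb N x y t = v then
      some (Classical.choose h) else none
  have hβ1 : ∀ t : Bool × List Bool, t.2.length ≤ 5 → β (emb N x y t) = some t := by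
    intro t ht
    have h : ∃ t' : Bool × List Bool, t'.2.length ≤ 5 ∧ emb N x y t' = emb N x y t := ⟨t, ht, rfl⟩
    have h1 := Classical.choose_spec h
    simp only [β]
    rw [dif_pos h]
    congr 1
    exact emb_inj h12 N hN hxy _ _ h1.1 ht h1.2
  have hβ2 : ∀ v t, β v = some t → emb N x y t = v := by
    intro v t h
    simp only [β] at h
    by_cases h1 : ∃ t : Bool × List Bool, t.2.length ≤ 5 ∧ emb N x y t = v
    · rw [dif_pos h1, Option.some_inj] at h
      rw [← h]
      exact (Classical.choose_spec h1).2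
    · rw [dif_neg h1] at h
      exact absurd h (by simp)
  apply hS
  refine ⟨β, ?_, ?_, ?_⟩
  · intro t ht X hv hv'
    obtain ⟨v, hvX, hvt⟩ := hv
    obtain ⟨v', hvX', hvt'⟩ := hv'
    exfalso
    apply hvX'
    rw [← hβ2 v' t hvt', hβ2 v t hvt]
    exact hvX
  · intro t t' ht' hP
    have h1 : t.2.length ≤ 5 := by
      obtain ⟨b, w⟩ := t
      obtain ⟨b', w'⟩ := t'
      rcases hP with ⟨h5, h6⟩ | ⟨h5, c, h6⟩
      · rw [h5]; simp
      · simp only at h5 h6
        subst h5
        subst h6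
        simp only [List.length_cons] at ht' ⊢
        omega
    obtain ⟨-, e', he'⟩ := hadj t t' ht' hP
    refine ⟨e', ?_⟩
    rcases he' with ⟨a, b⟩ | ⟨a, b⟩
    · left
      rw [a, b]
      exact ⟨hβ1 t h1, hβ1 t' ht'⟩
    · right
      rw [a, b]
      exact ⟨hβ1 t h1, hβ1 t' ht'⟩
  · intro e' t t' h1 h2 ha hb hne
    have e1 := hβ2 _ _ ha
    have e2 := hβ2 _ _ hb
    refine adj_all h12 N hN hxy t t' h1 h2 ?_
    rw [e1, e2]
    refine ⟨fun h => hne ?_, e', Or.inl ⟨rfl, rfl⟩⟩
    rw [h, hb, Option.some_inj] at ha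
    exact ha.symm

end Pool.Agent.Zk57.IT
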