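import Pool.Agent.Y335.FL.Ahl
import Pool.Agent.Y335.FL.Iso
import Pool.Agent.Y335.FL.Surf
import Pool.Agent.H168DD.TB

set_option autoImplicit false
set_option linter.unusedSectionVars false

/-! # Graphs with matching number at most 62 -/

namespace Pool.Agent.Zk57.M62

open Finset Pool.Agent.TH676.Z Pool.Agent.Y335.FL Pool.Agent.Y335.FL.IsoAux

/-- sums of powers: the Moore bound against the number of vertices -/
theorem num1 (N : ℕ) (h1 : 1 ≤ N) (h2 : N ≤ 123) (y : ℝ) (hy : 2 - 1 / (N : ℝ) ≤ y)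
    (h : 2 * ∑ i ∈ range 6, y ^ i ≤ (N : ℝ)) : False := by
  have hN : (0 : ℝ) < N := by exact_mod_cast h1
  have key : ∀ c : ℝ, 0 ≤ c → c ≤ y → 2 * (1 + c + c ^ 2 + c ^ 3 + c ^ 4 + c ^ 5) ≤ (N : ℝ) := by
    intro c hc hcy
    refine le_trans ?_ h
    simp only [sum_range_succ, range_zero, sum_empty, pow_zero, pow_one, zero_add]
    have a2 := pow_le_pow_left₀ hc hcy 2
    have a3 := pow_le_pow_left₀ hc hcy 3
    have a4 := pow_le_pow_left₀ hc hcy 4
    have a5 := pow_le_pow_left₀ hc hcy 5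
    linarith
  by_cases hA : N ≤ 11
  · have h3 : (N : ℝ) ≤ 11 := by exact_mod_cast hA
    have h4 : 1 / (N : ℝ) ≤ 1 := by
      rw [div_le_one hN]
      exact_mod_cast h1
    have := key 1 (by norm_num) (by linarith)
    norm_num at this
    linarith
  · push Not at hA
    by_cases hB : N ≤ 100
    · have h3 : (N : ℝ) ≤ 100 := by exact_mod_cast hB
      have h5 : (12 : ℝ) ≤ N := by exact_mod_cast hA
      have h4 : 1 / (N : ℝ) ≤ 1 / 12 := one_div_le_one_div_of_le (by norm_num) h5
      have := key (19 / 10) (by norm_num) (by linarith)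
      norm_num at this
      linarith
    · push Not at hB
      have h3 : (N : ℝ) ≤ 123 := by exact_mod_cast h2
      have h5 : (101 : ℝ) ≤ N := by exact_mod_cast hB
      have h4 : 1 / (N : ℝ) ≤ 1 / 101 := one_div_le_one_div_of_le (by norm_num) h5
      have := key (199 / 100) (by norm_num) (by linarith)
      norm_num at this
      linarith

theorem num2 (N : ℕ) (h2 : N ≤ 125) (y : ℝ) (hy : 2 ≤ y)
    (h : 2 * ∑ i ∈ range 6, y ^ i ≤ (N : ℝ)) : False := by
  have h3 : (N : ℝ) ≤ 125 := by exact_mod_cast h2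
  simp only [sum_range_succ, range_zero, sum_empty, pow_zero, pow_one, zero_add] at h
  have a2 := pow_le_pow_left₀ (by norm_num : (0 : ℝ) ≤ 2) hy 2
  have a3 := pow_le_pow_left₀ (by norm_num : (0 : ℝ) ≤ 2) hy 3
  have a4 := pow_le_pow_left₀ (by norm_num : (0 : ℝ) ≤ 2) hy 4
  have a5 := pow_le_pow_left₀ (by norm_num : (0 : ℝ) ≤ 2) hy 5
  linarith

section
variable {V : Type} [Fintype V] [DecidableEq V] (G : SimpleGraph V) [DecidableRel G.Adj]

/-- the indicator of adjacency -/
abbrev aj (x y : V) : ℕ := ai G univ x y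

theorem aj_eq (x y : V) : aj G x y = if G.Adj x y then 1 else 0 := by
  unfold aj ai
  simp

theorem aj_symm (x y : V) : aj G x y = aj G y x := by
  rw [aj_eq, aj_eq]
  exact if_congr (G.adj_comm x y) rfl rfl

theorem aj_irr (x : V) : aj G x x = 0 := by
  rw [aj_eq, if_neg (G.loopless.irrefl x)]

/-- the Moore bound for a set of vertices -/
theorem ahl_set (X : Finset V) (hX : X.Nonempty) (hg : Girth G.Adj 12)
    (hd : ∀ v ∈ X, 2 ≤ ∑ y ∈ X, aj G v y) :
    2 * ∑ i ∈ range 6, ((Dg (aj G) X : ℝ) / X.card - 1) ^ i ≤ (X.card : ℝ) := by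
  have hne : Nonempty {x // x ∈ X} := hX.to_subtype
  have h1 := ahl {x // x ∈ X} (GY G univ X) (fun v => by
    rw [deg_GY]
    exact hd v.1 v.2) (girth_GY G univ X hg)
  rw [Fintype.card_coe] at h1
  rw [Dg_GY]
  push_cast
  exact h1

theorem dense (hg : Girth G.Adj 12) : ∀ (n : ℕ) (X : Finset V), X.card = n → X.Nonempty →
    n ≤ 123 → Dg (aj G) X + 2 ≤ 3 * n := by
  intro n
  induction n with
  | zero =>
    intro X hX hne _
    rw [card_eq_zero] at hX
    rw [hX] at hne
    exact absurd hne (by simp)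
  | succ n ih =>
    intro X hX hne hn
    by_cases hd : ∀ y ∈ X, 2 ≤ ∑ z ∈ X, aj G y z
    · by_contra hcon
      push Not at hcon
      have h1 := ahl_set G X hne hg hd
      rw [hX] at h1
      have hN : (0 : ℝ) < ((n + 1 : ℕ) : ℝ) := by positivity
      refine num1 (n + 1) (by omega) hn _ ?_ h1
      have h2 : 3 * ((n + 1 : ℕ) : ℝ) - 1 ≤ (Dg (aj G) X : ℝ) := by
        have : 3 * (n + 1) ≤ Dg (aj G) X + 1 := by omega
        have h3 : ((3 * (n + 1) : ℕ) : ℝ) ≤ ((Dg (aj G) X + 1 : ℕ) : ℝ) := by exact_mod_cast this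
        push_cast at h3 ⊢
        linarith
      rw [le_sub_iff_add_le, le_div_iff₀ hN]
      have h4 : (1 / ((n + 1 : ℕ) : ℝ)) * ((n + 1 : ℕ) : ℝ) = 1 := one_div_mul_cancel hN.ne'
      have h5 : (2 - 1 / ((n + 1 : ℕ) : ℝ) + 1) * ((n + 1 : ℕ) : ℝ)
          = 3 * ((n + 1 : ℕ) : ℝ) - (1 / ((n + 1 : ℕ) : ℝ)) * ((n + 1 : ℕ) : ℝ) := by ring
      rw [h5, h4]
      exact h2
    · push Not at hd
      obtain ⟨v, hv, hd⟩ := hd
      have h1 := Dg_erase (a := aj G) (aj_symm G) (aj_irr G) hv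
      have h2 := card_erase_of_mem hv
      rcases (X.erase v).eq_empty_or_nonempty with hem | hne'
      · have h3 : Dg (aj G) (X.erase v) = 0 := by rw [hem]; simp [Dg]
        have h4 : ∑ y ∈ X, aj G v y = 0 := by
          refine sum_eq_zero fun y hy => ?_
          have h5 : y = v := by
            by_contra hyv
            have : y ∈ X.erase v := mem_erase.2 ⟨hyv, hy⟩
            rw [hem] at this
            exact absurd this (notMem_empty _)
          rw [h5, aj_irr]
        omega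
      · have h3 := ih (X.erase v) (by omega) hne' (by omega)
        omega

/-- closed sets are large -/
theorem closed_large (hg : Girth G.Adj 12) (X : Finset V) (hX : X.Nonempty)
    (hd : ∀ v ∈ X, 3 ≤ ∑ y ∈ X, aj G v y) : 126 ≤ X.card := by
  by_contra hcon
  push Not at hcon
  have h1 := ahl_set G X hX hg (fun v hv => le_trans (by norm_num) (hd v hv))
  have hN : (0 : ℝ) < (X.card : ℝ) := by exact_mod_cast hX.card_pos
  refine num2 X.card (by omega) _ ?_ h1
  have h2 : X.card * 3 ≤ Dg (aj G) X := by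
    unfold Dg
    exact card_nsmul_le_sum _ _ _ hd
  have h3 : 3 * (X.card : ℝ) ≤ (Dg (aj G) X : ℝ) := by
    have : ((X.card * 3 : ℕ) : ℝ) ≤ ((Dg (aj G) X : ℕ) : ℝ) := by exact_mod_cast h2
    push_cast at this
    linarith
  rw [le_sub_iff_add_le, le_div_iff₀ hN]
  linarith

theorem num3 {a z r f m t : ℕ} (ha : 1 ≤ a) (h1 : 2 * a + 2 * z + r ≤ 125)
    (h2 : 2 * m ≤ 6 * z + 3 * r) (h3 : 3 * (2 * z + f + r) ≤ 2 * m + t) (h4 : a + 1 ≤ f)
    (h63 : 63 * t ≤ a * (m + t)) : False := by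
  have ha62 : a ≤ 62 := by omega
  have ht : 3 * a + 3 ≤ t := by omega
  have hm : 2 * m ≤ 375 - 6 * a := by omega
  have h5 : 126 * t ≤ a * (2 * m) + 2 * (a * t) := by
    have : 2 * (63 * t) ≤ 2 * (a * (m + t)) := Nat.mul_le_mul_left 2 h63
    calc 126 * t = 2 * (63 * t) := by ring
      _ ≤ 2 * (a * (m + t)) := this
      _ = a * (2 * m) + 2 * (a * t) := by ring
  have h6 : a * (2 * m) ≤ a * (375 - 6 * a) := Nat.mul_le_mul_left a hm
  zify [show 6 * a ≤ 375 by omega] at *
  nlinarith [mul_nonneg (show (0 : ℤ) ≤ 126 - 2 * (a : ℤ) by omega)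
    (show (0 : ℤ) ≤ (t : ℤ) - (3 * a + 3) by linarith)]

/-- **The main counting argument.** -/
theorem no_family (hg : Girth G.Adj 12) (h3 : ∀ x y, G.Adj x y → 3 ≤ ∑ z, aj G x z)
    (T : Finset V) (hT : ∀ x, x ∈ T ↔ ∃ y, G.Adj x y)
    (A : Finset V) (F : Finset (Finset V)) (hAT : A ⊆ T) (hodd : ∀ O ∈ F, Odd O.card)
    (hdisj : ∀ O ∈ F, ∀ O' ∈ F, O ≠ O' → Disjoint O O') (hsub : ∀ O ∈ F, O ⊆ T \ A)
    (hcl : ∀ O ∈ F, ∀ x ∈ O, ∀ y, G.Adj x y → y ∈ O ∨ y ∈ A)
    (hlt : A.card + (T.card - 126) < F.card) (h126 : 126 ≤ T.card) {m t : ℕ}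
    (hm : 2 * m ≤ Dg (aj G) (T \ A)) (hdeg : 3 * (T \ A).card ≤ 2 * m + t)
    (h63 : 63 * t ≤ A.card * (m + t)) : False := by
  classical
  set B := F.biUnion id with hB
  set R := (T \ A) \ B with hR
  have hBT : B ⊆ T \ A := by
    intro x hx
    rw [hB, mem_biUnion] at hx
    obtain ⟨O, hO, hx⟩ := hx
    exact hsub O hO hx
  have hpd : (F : Set (Finset V)).PairwiseDisjoint id := by
    intro O hO O' hO' h
    exact hdisj O hO O' hO' h
  have hBc : B.card = ∑ O ∈ F, O.card := card_biUnion (fun O hO O' hO' h => hdisj O hO O' hO' h)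
  have hc : ∀ O ∈ F, O.card = 2 * (O.card / 2) + 1 := by
    intro O hO
    have := hodd O hO
    rw [Nat.odd_iff] at this
    omega
  have hBc2 : B.card = 2 * (∑ O ∈ F, O.card / 2) + F.card := by
    rw [hBc, sum_congr rfl hc, sum_add_distrib, ← mul_sum, sum_const, smul_eq_mul, mul_one]
  have hRB : R.card + B.card = (T \ A).card := card_sdiff_add_card_eq_card hBT
  have hTA : (T \ A).card + A.card = T.card := card_sdiff_add_card_eq_card hAT
  have hz : ∀ O ∈ F, O.card / 2 ≤ ∑ O ∈ F, O.card / 2 := fun O hO =>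
    single_le_sum (f := fun O : Finset V => O.card / 2) (fun _ _ => Nat.zero_le _) hO
  have hbig : 2 * A.card + 2 * (∑ O ∈ F, O.card / 2) + R.card ≤ 125 := by omega
  have hTm : ∀ x y, G.Adj x y → y ∈ T := fun x y h => (hT y).2 ⟨x, h.symm⟩
  have haj : ∀ x y, aj G x y ≠ 0 → G.Adj x y := by
    intro x y h
    rw [aj_eq] at h
    by_contra hn
    rw [if_neg hn] at h
    exact h rfl
  rcases Nat.eq_zero_or_pos A.card with ha | ha
  · -- no vertices in `A`
    have hA : A = ∅ := card_eq_zero.1 ha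
    obtain ⟨O, hO⟩ : F.Nonempty := card_pos.1 (by omega)
    have hOc := hc O hO
    have hne : O.Nonempty := card_pos.1 (by omega)
    have h1 : 126 ≤ O.card := by
      refine closed_large G hg O hne fun v hv => ?_
      have hvT := (mem_sdiff.1 (hsub O hO hv)).1
      obtain ⟨y, hy⟩ := (hT v).1 hvT
      refine (h3 v y hy).trans (le_of_eq ?_)
      symm
      refine sum_subset (subset_univ O) fun w _ hw => ?_
      by_contra h
      rcases hcl O hO v hv w (haj v w h) with h' | h'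
      · exact hw h'
      · rw [hA] at h'
        exact absurd h' (notMem_empty _)
    have := hz O hO
    omega
  · -- the edges outside `A`
    have hO3 : ∀ O ∈ F, Dg (aj G) O + 3 ≤ 3 * O.card := by
      intro O hO
      have hOc := hc O hO
      have hne : O.Nonempty := card_pos.1 (by omega)
      have h1 := hz O hO
      have h2 := dense G hg O.card O rfl hne (by omega)
      have h4 : Dg (aj G) O = 2 * (GY G univ O).edgeFinset.card := Dg_GY G univ O
      omega
    have hR3 : Dg (aj G) R ≤ 3 * R.card := by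
      rcases R.eq_empty_or_nonempty with h | h
      · rw [h]; simp [Dg]
      · have := dense G hg R.card R rfl h (by omega)
        omega
    have hDg : Dg (aj G) (T \ A) ≤ ∑ O ∈ F, Dg (aj G) O + Dg (aj G) R := by
      have e1 : T \ A = B ∪ R := by
        rw [hR, union_comm, sdiff_union_of_subset hBT]
      have hd : Disjoint B R := by
        rw [hR]
        exact disjoint_sdiff
      unfold Dg
      conv_lhs => rw [e1]
      rw [sum_union hd]
      have e2 : ∑ v ∈ B, ∑ y ∈ B ∪ R, aj G v y = ∑ O ∈ F, ∑ v ∈ O, ∑ y ∈ B ∪ R, aj G v y := by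
        rw [hB]
        exact sum_biUnion hpd
      rw [← e1] at e2 ⊢
      rw [e2]
      refine Nat.add_le_add (sum_le_sum fun O hO => sum_le_sum fun v hv => ?_)
        (sum_le_sum fun v hv => ?_)
      · refine le_of_eq (sum_subset (hsub O hO) fun w hw hwO => ?_).symm
        by_contra h
        rcases hcl O hO v hv w (haj v w h) with h' | h'
        · exact hwO h'
        · exact (mem_sdiff.1 hw).2 h'
      · refine le_of_eq (sum_subset (by rw [hR]; exact sdiff_subset) fun w hw hwR => ?_).symm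
        by_contra h
        have hadj := haj v w h
        have hwB : w ∈ B := by
          by_contra hwB
          exact hwR (by rw [hR]; exact mem_sdiff.2 ⟨hw, hwB⟩)
        rw [hB, mem_biUnion] at hwB
        obtain ⟨O, hO, hwO⟩ := hwB
        rw [hR, mem_sdiff, mem_sdiff] at hv
        rcases hcl O hO w hwO v hadj.symm with h' | h'
        · exact hv.2 (by rw [hB]; exact mem_biUnion.2 ⟨O, hO, h'⟩)
        · exact hv.1.2 h'
    have hsum : ∑ O ∈ F, Dg (aj G) O ≤ 6 * (∑ O ∈ F, O.card / 2) := by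
      rw [mul_sum]
      refine sum_le_sum fun O hO => ?_
      have h1 := hO3 O hO
      have h2 := hc O hO
      omega
    refine num3 (a := A.card) (z := ∑ O ∈ F, O.card / 2) (r := R.card) (f := F.card) (m := m)
      (t := t) ha hbig (by omega) (by omega) (by omega) h63

end

/-- `M` is a matching: the edges are not loops and no two of them have a common end -/
def IsMat {V E : Type} (s t : E → V) (M : Finset E) : Prop :=
  (∀ e ∈ M, s e ≠ t e) ∧ ∀ e ∈ M, ∀ e' ∈ M, e ≠ e' →
    s e ≠ s e' ∧ s e ≠ t e' ∧ t e ≠ s e' ∧ t e ≠ t e'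

theorem IsMat.of_map {V E : Type} {s t : E → V} (π : V → V) {M : Finset E}
    (h : IsMat (π ∘ s) (π ∘ t) M) : IsMat s t M :=
  ⟨fun e he h' => h.1 e he (congrArg π h'), fun e he e' he' hne =>
    have := h.2 e he e' he' hne
    ⟨fun h' => this.1 (congrArg π h'), fun h' => this.2.1 (congrArg π h'),
      fun h' => this.2.2.1 (congrArg π h'), fun h' => this.2.2.2 (congrArg π h')⟩⟩

/-- matchings have at most `k` edges -/
def Cl {V E : Type} (k : ℕ) (s t : E → V) : Prop := ∀ M : Finset E, IsMat s t M → M.card ≤ k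

theorem clMC (k : ℕ) (V E : Type) [Fintype V] [DecidableEq V] [Fintype E] [DecidableEq E] :
    MC (V := V) (E := E) (Cl k) := by
  constructor
  · intro s t e h _ M hM
    have hne : ∀ x ∈ M, Pool.Agent.TH676.Z.lp s t {e} x = t x := by
      intro x hx
      have h1 := hM.1 x hx
      unfold Pool.Agent.TH676.Z.lp at h1 ⊢
      by_cases h2 : x ∈ ({e} : Finset E)
      · rw [if_pos h2] at h1
        exact absurd rfl h1
      · rw [if_neg h2]
    refine h M ⟨fun x hx => ?_, fun x hx y hy hxy => ?_⟩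
    · have h1 := hM.1 x hx
      rw [hne x hx] at h1
      exact h1
    · have h1 := hM.2 x hx y hy hxy
      rw [hne x hx, hne y hy] at h1
      exact h1
  · intro s t e h _ M hM
    exact h M (IsMat.of_map (ctr (s e) (t e)) hM)

section
variable {V E : Type} [Fintype V] [DecidableEq V] [Fintype E] [DecidableEq E]

/-- the number of edges outside `A` and the degrees outside `A` -/
theorem es_le {S D : E → V} (G : SimpleGraph V) [DecidableRel G.Adj]
    (hG : ∀ a b, G.Adj a b ↔ Adj S D a b) (hP : NoPar S D) (T A : Finset V)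
    (hT : ∀ x, x ∈ T ↔ ∃ y, G.Adj x y) :
    2 * (ES S D A).card ≤ Dg (aj G) (T \ A) := by
  classical
  have h1 : Dg (aj G) (T \ A) = (((T \ A) ×ˢ (T \ A)).filter (fun p => G.Adj p.1 p.2)).card := by
    unfold Dg
    rw [card_filter, sum_product]
    exact sum_congr rfl fun v _ => sum_congr rfl fun w _ => aj_eq G v w
  have h2 : 2 * (ES S D A).card = ((ES S D A) ×ˢ (univ : Finset Bool)).card := by
    rw [card_product, card_univ, Fintype.card_bool, mul_comm]
  rw [h1, h2]
  refine card_le_card_of_injOn (fun p => if p.2 then (D p.1, S p.1) else (S p.1, D p.1)) ?_ ?_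
  · rintro ⟨e, b⟩ he
    have he1 := (mem_product.1 (mem_coe.1 he)).1
    simp only [ES, mem_filter, mem_univ, true_and] at he1
    obtain ⟨hne, hs, hd⟩ := he1
    have ha : G.Adj (S e) (D e) := (hG _ _).2 ⟨hne, e, Or.inl ⟨rfl, rfl⟩⟩
    have m1 : S e ∈ T \ A := mem_sdiff.2 ⟨(hT _).2 ⟨_, ha⟩, hs⟩
    have m2 : D e ∈ T \ A := mem_sdiff.2 ⟨(hT _).2 ⟨_, ha.symm⟩, hd⟩
    rw [mem_coe, mem_filter, mem_product]
    cases b
    · exact ⟨⟨m1, m2⟩, ha⟩
    · exact ⟨⟨m2, m1⟩, ha.symm⟩
  · rintro ⟨e, b⟩ he ⟨e', b'⟩ he' heq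
    have he1 := (mem_product.1 (mem_coe.1 he)).1
    have he2 := (mem_product.1 (mem_coe.1 he')).1
    simp only [ES, mem_filter, mem_univ, true_and] at he1 he2
    cases b <;> cases b' <;>
      simp only [if_true, if_false, Bool.false_eq_true, Prod.mk.injEq] at heq
    · rw [hP e e' (S e) (D e) he1.1 (Or.inl ⟨rfl, rfl⟩) (Or.inl ⟨heq.1.symm, heq.2.symm⟩)]
    · have := hP e e' (S e) (D e) he1.1 (Or.inl ⟨rfl, rfl⟩) (Or.inr ⟨heq.2.symm, heq.1.symm⟩)
      subst this
      exact absurd heq.1 he1.1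
    · have := hP e e' (S e) (D e) he1.1 (Or.inl ⟨rfl, rfl⟩) (Or.inr ⟨heq.1.symm, heq.2.symm⟩)
      subst this
      exact absurd heq.2 he1.1
    · rw [hP e e' (S e) (D e) he1.1 (Or.inl ⟨rfl, rfl⟩) (Or.inl ⟨heq.2.symm, heq.1.symm⟩)]

end

/-- **Main step.** -/
theorem flow62 (hg : St_girth12) (hE : Edge62') (V E : Type) [Fintype V]
    [DecidableEq V] [Fintype E] [DecidableEq E] (src dst : E → V) (hA : Cl 62 src dst)
    (hb : Br src dst ∅ ∅) : FlowOn src dst ∅ ∅ := by
  classical
  by_contra hn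
  obtain ⟨S, D, hAp, hM⟩ := crit V E (Cl 62) (clMC 62 V E) src dst hA hb hn
  have hT3 := (gi_all V E S D hM).2
  have hP := noPar V E S D hM
  have hG12 := hg V E S D hM
  by_cases hno : ∀ e, S e = D e
  · exact hM.nf (flow_of_loops hno)
  push Not at hno
  obtain ⟨e0, he0⟩ := hno
  let G : SimpleGraph V :=
    { Adj := Adj S D
      symm := ⟨fun a b h => GiAux.adj_symm h⟩
      loopless := ⟨fun a h => h.1 rfl⟩ }
  have hG : ∀ a b, G.Adj a b ↔ Adj S D a b := fun a b => Iff.rfl
  have h3 : ∀ x y, G.Adj x y → 3 ≤ ∑ z, aj G x z := by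
    intro x y hxy
    obtain ⟨a, b, c, ha, hb', hc, hab, hac, hbc⟩ := hT3 x y hxy
    have h1 : ∑ z ∈ ({a, b, c} : Finset V), aj G x z = 3 := by
      rw [sum_insert (by simp [hab, hac]), sum_insert (by simp [hbc]), sum_singleton,
        aj_eq, aj_eq, aj_eq, if_pos ha, if_pos hb', if_pos hc]
      norm_num
    rw [← h1]
    exact sum_le_sum_of_subset (subset_univ _)
  obtain ⟨T, hT⟩ : ∃ T : Finset V, ∀ x, x ∈ T ↔ ∃ y, G.Adj x y :=
    ⟨univ.filter (fun x => ∃ y, G.Adj x y), fun x => by simp⟩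
  have h126 : 126 ≤ T.card := by
    refine closed_large G hG12 T ⟨S e0, (hT _).2 ⟨D e0, he0, e0, Or.inl ⟨rfl, rfl⟩⟩⟩ ?_
    intro v hv
    obtain ⟨y, hy⟩ := (hT v).1 hv
    refine (h3 v y hy).trans (le_of_eq ?_)
    symm
    refine sum_subset (subset_univ T) fun w _ hw => ?_
    rw [aj_eq, if_neg]
    intro h
    exact hw ((hT w).2 ⟨v, h.symm⟩)
  obtain ⟨U, m, hUT, hU, hm⟩ := H168DD.tutte_berge G T (T.card - 126) ⟨T.card - 63, by omega⟩ (by
    intro A F hAT hodd hdisj hsub hcl
    by_contra hlt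
    push Not at hlt
    have hcl' : ∀ O ∈ F, ∀ x ∈ O, ∀ y, G.Adj x y → y ∈ O ∨ y ∈ A := fun O hO x hx y hy =>
      hcl O hO x hx y ((hT y).2 ⟨x, hy.symm⟩) hy
    have hA62 : A.card ≤ 62 := by
      have h1 : F.card ≤ (T \ A).card := by
        have hBc : (F.biUnion id).card = ∑ O ∈ F, O.card :=
          card_biUnion (fun O hO O' hO' h => hdisj O hO O' hO' h)
        have hBT : F.biUnion id ⊆ T \ A := by
          intro x hx
          rw [mem_biUnion] at hx
          obtain ⟨O, hO, hx⟩ := hx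
          exact hsub O hO hx
        have h2 : F.card ≤ ∑ O ∈ F, O.card := by
          rw [card_eq_sum_ones]
          exact sum_le_sum fun O hO => (hodd O hO).pos
        have := card_le_card hBT
        omega
      have hTA : (T \ A).card + A.card = T.card := card_sdiff_add_card_eq_card hAT
      omega
    obtain ⟨h63, -, -⟩ := Surfx.common hE hG12 hT3 hP he0 A hA62
    have hdeg := degS V E S D A hT3
    have hVS : (T \ A).card ≤ (VS S D A).card := by
      refine card_le_card fun x hx => ?_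
      obtain ⟨h1, h2⟩ := mem_sdiff.1 hx
      simp only [VS, mem_filter, mem_univ, true_and]
      exact ⟨h2, (hT x).1 h1⟩
    exact no_family G hG12 h3 T hT A F hAT hodd hdisj hsub hcl' hlt h126
      (es_le G hG hP T A hT) (by omega) h63)
  -- one vertex of each edge
  let ι := Fintype.equivFin V
  set P := (T \ U).filter (fun x => ι x < ι (m x)) with hPd
  have hcov : T \ U ⊆ P ∪ P.image m := by
    intro x hx
    obtain ⟨h1, h2, h3⟩ := hm x hx
    rcases lt_trichotomy (ι x) (ι (m x)) with h | h | h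
    · exact mem_union_left _ (mem_filter.2 ⟨hx, h⟩)
    · exact absurd (ι.injective h) h3.ne
    · apply mem_union_right
      refine mem_image.2 ⟨m x, mem_filter.2 ⟨h1, ?_⟩, h2⟩
      rw [h2]
      exact h
  have hPc : 63 ≤ P.card := by
    have h1 := card_le_card hcov
    have h2 := card_union_le P (P.image m)
    have h3 : (P.image m).card ≤ P.card := card_image_le
    have h4 := card_sdiff_add_card_eq_card hUT
    omega
  have hex : ∀ x, ∃ e, x ∈ P → (S e = x ∧ D e = m x) ∨ (S e = m x ∧ D e = x) := by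
    intro x
    by_cases hx : x ∈ P
    · obtain ⟨-, e, hE⟩ := (hm x (mem_filter.1 hx).1).2.2
      exact ⟨e, fun _ => hE⟩
    · exact ⟨e0, fun h => absurd h hx⟩
  choose ed hend using hex
  have hPm : ∀ x ∈ P, m (m x) = x ∧ x ≠ m x ∧ ι x < ι (m x) := fun x hx =>
    ⟨(hm x (mem_filter.1 hx).1).2.1, (hm x (mem_filter.1 hx).1).2.2.ne, (mem_filter.1 hx).2⟩
  have hdis : ∀ x ∈ P, ∀ y ∈ P, x ≠ y → x ≠ m y ∧ m x ≠ m y := by
    intro x hx y hy hxy
    refine ⟨fun h => ?_, fun h => hxy ?_⟩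
    · have h1 := (hPm x hx).2.2
      have h2 := (hPm y hy).2.2
      rw [h, (hPm y hy).1] at h1
      exact absurd (lt_trans h1 h2) (lt_irrefl _)
    · rw [← (hPm x hx).1, h, (hPm y hy).1]
  have hinj : ∀ x ∈ P, ∀ y ∈ P, ed x = ed y → x = y := by
    intro x hx y hy hxy
    by_contra hne
    have hd := hdis x hx y hy hne
    have hd' := hdis y hy x hx (Ne.symm hne)
    have h1 := hend x hx
    have h2 := hend y hy
    rw [hxy] at h1
    rcases h1 with ⟨a, b⟩ | ⟨a, b⟩ <;> rcases h2 with ⟨c, d⟩ | ⟨c, d⟩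
    · exact hne (a.symm.trans c)
    · exact hd.1 (a.symm.trans c)
    · exact hd'.1 (c.symm.trans a)
    · exact hd.2 (a.symm.trans c)
  have hfin := hAp (P.image ed) ⟨?_, ?_⟩
  · rw [card_image_of_injOn (fun x hx y hy h => hinj x hx y hy h)] at hfin
    omega
  · intro e he
    obtain ⟨x, hx, rfl⟩ := mem_image.1 he
    rcases hend x hx with ⟨a, b⟩ | ⟨a, b⟩
    · rw [a, b]; exact (hPm x hx).2.1
    · rw [a, b]; exact (hPm x hx).2.1.symm
  · intro e he e' he' hne
    obtain ⟨x, hx, rfl⟩ := mem_image.1 he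
    obtain ⟨y, hy, rfl⟩ := mem_image.1 he'
    have hxy : x ≠ y := fun h => hne (by rw [h])
    have hd := hdis x hx y hy hxy
    have hd' := hdis y hy x hx hxy.symm
    rcases hend x hx with ⟨a, b⟩ | ⟨a, b⟩ <;> rcases hend y hy with ⟨c, d⟩ | ⟨c, d⟩ <;>
      rw [a, b, c, d]
    · exact ⟨hxy, hd.1, hd'.1.symm, hd.2⟩
    · exact ⟨hd.1, hxy, hd.2, hd'.1.symm⟩
    · exact ⟨hd'.1.symm, hd.2, hxy, hd.1⟩
    · exact ⟨hd.2, hd'.1.symm, hd.1, hxy⟩

end Pool.Agent.Zk57.M62
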